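import Mathlib

/-!
The equations of transcendental numbers over a transcendence basis, with relatively prime
coefficients.
-/

set_option autoImplicit false

namespace Pool.Agent.Helper52.OB

open Polynomial

/-- The equation of one number. -/
lemma one (K : Subfield ℂ) {r : ℕ} (t : Fin r → ℂ) {y : ℂ} (hy : Transcendental K y)
    (h : IsAlgebraic (Algebra.adjoin K (Set.range t)) y) :
    ∃ (S : Finset (Fin r →₀ ℕ)) (h u : (Fin r →₀ ℕ) → Polynomial K),
      ∑ μ ∈ S, u μ * h μ = 1 ∧ ∑ μ ∈ S, aeval y (h μ) * ∏ j, t j ^ μ j = 0 := by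
  classical
  obtain ⟨p, hp0, hp⟩ := h
  -- lift the coefficients
  have hlift : ∀ i, ∃ q : MvPolynomial (Fin r) K, MvPolynomial.aeval t q =
      ((p.coeff i : Algebra.adjoin K (Set.range t)) : ℂ) := by
    intro i
    have h1 : ((p.coeff i : Algebra.adjoin K (Set.range t)) : ℂ) ∈
        (MvPolynomial.aeval t : MvPolynomial (Fin r) K →ₐ[K] ℂ).range :=
      (Algebra.adjoin_range_eq_range_aeval K t).le (p.coeff i).2
    exact h1
  choose Q hQ using hlift
  set S : Finset (Fin r →₀ ℕ) := (Finset.range (p.natDegree + 1)).biUnion fun i => (Q i).support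
    with hS
  set H : (Fin r →₀ ℕ) → Polynomial K := fun μ =>
    ∑ i ∈ Finset.range (p.natDegree + 1), C ((Q i).coeff μ) * X ^ i with hH
  have hcoef : ∀ μ i, i ∈ Finset.range (p.natDegree + 1) → (H μ).coeff i = (Q i).coeff μ := by
    intro μ i hi
    rw [hH, finsetSum_coeff]
    simp only [coeff_C_mul, coeff_X_pow, mul_ite, mul_one, mul_zero]
    rw [Finset.sum_ite_eq (Finset.range (p.natDegree + 1)) i, if_pos hi]
  have hsum : ∑ μ ∈ S, aeval y (H μ) * ∏ j, t j ^ μ j = 0 := by
    have h1 : ∀ i ∈ Finset.range (p.natDegree + 1),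
        MvPolynomial.aeval t (Q i) = ∑ μ ∈ S, algebraMap K ℂ ((Q i).coeff μ) * ∏ j, t j ^ μ j := by
      intro i hi
      rw [MvPolynomial.aeval_eq_eval₂Hom, MvPolynomial.coe_eval₂Hom, MvPolynomial.eval₂_eq']
      refine Finset.sum_subset (Finset.subset_biUnion_of_mem (fun i => (Q i).support) hi) ?_
      intro μ _ hμ
      rw [MvPolynomial.notMem_support_iff.mp hμ, map_zero, zero_mul]
    have h2 : (aeval y p : ℂ) = ∑ i ∈ Finset.range (p.natDegree + 1),
        ((p.coeff i : Algebra.adjoin K (Set.range t)) : ℂ) * y ^ i := by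
      rw [aeval_eq_sum_range]
      rfl
    rw [← hp, h2]
    have h3 : ∀ i ∈ Finset.range (p.natDegree + 1),
        ((p.coeff i : Algebra.adjoin K (Set.range t)) : ℂ) * y ^ i =
          ∑ μ ∈ S, algebraMap K ℂ ((Q i).coeff μ) * y ^ i * ∏ j, t j ^ μ j := by
      intro i hi
      rw [← hQ i, h1 i hi, Finset.sum_mul]
      exact Finset.sum_congr rfl fun μ _ => by ring
    rw [Finset.sum_congr rfl h3, Finset.sum_comm]
    refine Finset.sum_congr rfl fun μ _ => ?_
    rw [hH, map_sum, Finset.sum_mul]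
    refine Finset.sum_congr rfl fun i _ => ?_
    rw [map_mul, map_pow, aeval_C, aeval_X]
  -- the common divisor
  obtain ⟨g, hg⟩ := IsPrincipalIdealRing.principal (Ideal.span (Set.range fun μ : S => H μ))
  have hdvd : ∀ μ ∈ S, g ∣ H μ := by
    intro μ hμ
    have h1 : H μ ∈ Ideal.span (Set.range fun μ : S => H μ) :=
      Ideal.subset_span ⟨⟨μ, hμ⟩, rfl⟩
    rw [hg, ← Ideal.span, Ideal.mem_span_singleton] at h1
    exact h1
  have hg0 : g ≠ 0 := by
    rintro rfl
    apply hp0
    ext i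
    by_cases hi : i ∈ Finset.range (p.natDegree + 1)
    · have hQ0 : Q i = 0 := by
        ext μ
        rw [MvPolynomial.coeff_zero]
        by_cases hμ : μ ∈ (Q i).support
        · have h1 := hdvd μ (Finset.mem_biUnion.mpr ⟨i, hi, hμ⟩)
          rw [zero_dvd_iff] at h1
          rw [← hcoef μ i hi, h1, coeff_zero]
        · rw [MvPolynomial.notMem_support_iff.mp hμ]
      rw [← hQ i, hQ0, map_zero]
      rfl
    · rw [coeff_eq_zero_of_natDegree_lt, coeff_zero]
      rw [Finset.mem_range] at hi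
      omega
  obtain ⟨u, hu⟩ : ∃ u : (Fin r →₀ ℕ) → Polynomial K, ∑ μ ∈ S, u μ * H μ = g := by
    have h1 : g ∈ Ideal.span (Set.range fun μ : S => H μ) := by
      rw [hg]
      exact Ideal.mem_span_singleton_self g
    rw [Ideal.span, Submodule.mem_span_range_iff_exists_fun] at h1
    obtain ⟨c, hc⟩ := h1
    refine ⟨fun μ => if h : μ ∈ S then c ⟨μ, h⟩ else 0, ?_⟩
    rw [← hc, ← Finset.sum_coe_sort S]
    refine Finset.sum_congr rfl fun μ _ => ?_
    change (if h : (μ : Fin r →₀ ℕ) ∈ S then c ⟨μ, h⟩ else 0) * H μ = c μ • H μ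
    rw [dif_pos μ.2, smul_eq_mul]
  choose! H' hH' using hdvd
  refine ⟨S, H', u, ?_, ?_⟩
  · apply mul_left_cancel₀ hg0
    rw [mul_one, Finset.mul_sum]
    conv_rhs => rw [← hu]
    refine Finset.sum_congr rfl fun μ hμ => ?_
    conv_rhs => rw [hH' μ hμ]
    ring
  · have hgy : aeval y g ≠ 0 := fun h => hy ⟨g, hg0, h⟩
    apply mul_left_cancel₀ hgy
    rw [mul_zero, ← hsum, Finset.mul_sum]
    refine Finset.sum_congr rfl fun μ hμ => ?_
    conv_rhs => rw [hH' μ hμ]
    rw [map_mul]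
    ring

/-- **T1**: the equations of transcendental numbers over a transcendence basis, relatively prime
coefficients -/
theorem teq (Y : Finset ℂ) (hY : ∀ y ∈ Y, Transcendental ℚ y) :
    ∃ (r : ℕ) (t : Fin r → ℂ), AlgebraicIndependent (algebraicClosure ℚ ℂ).toSubfield t ∧
      ∀ y ∈ Y, ∃ (S : Finset (Fin r →₀ ℕ)) (h u : (Fin r →₀ ℕ) → Polynomial ℂ),
        (∀ μ i, IsAlgebraic ℚ ((h μ).coeff i)) ∧ (∀ μ i, IsAlgebraic ℚ ((u μ).coeff i)) ∧
        ∑ μ ∈ S, u μ * h μ = 1 ∧ ∑ μ ∈ S, (h μ).eval y * ∏ j, t j ^ μ j = 0 := by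
  classical
  set K : Subfield ℂ := (algebraicClosure ℚ ℂ).toSubfield with hK
  have hKalg : ∀ z : K, IsAlgebraic ℚ (z : ℂ) := fun z => mem_algebraicClosure_iff.mp z.2
  have hYK : ∀ y ∈ Y, Transcendental K y := by
    intro y hy h
    apply hY y hy
    have h1 : Algebra.IsAlgebraic ℚ K := ⟨fun z => by
      have h2 := hKalg z
      exact (isAlgebraic_algebraMap_iff (algebraMap K ℂ).injective).mp h2⟩
    exact IsAlgebraic.restrictScalars ℚ h
  obtain ⟨s, hs⟩ := (AlgebraicIndependent.matroid K ℂ).exists_isBasis (Y : Set ℂ) (by simp)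
  rw [AlgebraicIndependent.matroid_isBasis_iff] at hs
  obtain ⟨hs1, hs2, hs3⟩ := hs
  have hfin : s.Finite := Y.finite_toSet.subset hs2
  have : Fintype s := hfin.fintype
  set e : Fin (Fintype.card s) ≃ s := (Fintype.equivFin s).symm with he
  refine ⟨Fintype.card s, fun i => (e i : ℂ), hs1.comp e e.injective, fun y hy => ?_⟩
  have hr : Set.range (fun i => (e i : ℂ)) = s := by
    ext z
    constructor
    · rintro ⟨i, rfl⟩
      exact (e i).2
    · intro hz
      exact ⟨e.symm ⟨z, hz⟩, by simp⟩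
  obtain ⟨S, h, u, h1, h2⟩ := one K (fun i => (e i : ℂ)) (hYK y hy) (by
    rw [hr]
    exact hs3 y hy)
  refine ⟨S, fun μ => (h μ).map (algebraMap K ℂ), fun μ => (u μ).map (algebraMap K ℂ), ?_, ?_, ?_, ?_⟩
  · intro μ i
    rw [coeff_map]
    exact hKalg _
  · intro μ i
    rw [coeff_map]
    exact hKalg _
  · have h3 := congrArg (Polynomial.map (algebraMap K ℂ)) h1
    rw [Polynomial.map_sum, Polynomial.map_one] at h3
    rw [← h3]
    exact Finset.sum_congr rfl fun μ _ => (Polynomial.map_mul _).symm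
  · rw [← h2]
    refine Finset.sum_congr rfl fun μ _ => ?_
    rw [eval_map_algebraMap]

end Pool.Agent.Helper52.OB
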